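import Pool.Agent.W580.SH.StmA

/-! Project SH (MP_ba6ea3_co), part SHA-AB6: compatibility of deviations. -/

set_option autoImplicit false

namespace Pool.Agent.W405.SH.AB6

open Finset
open Pool.Agent.W580.SH

theorem det_step {R : Type} {n : ℕ} (κ : Fin (n + 1) → R) (s : R) (x x' p w : R → ℝ)
    (q : Fin n → (R → ℝ))
    (hx : ∀ b, x (κ b) = p (κ b)) (hxs : x s = p s + 1)
    (hx' : ∀ b, x' (κ b) = w (κ b) + x (κ b)) (hxs' : x' s = w s + x s)
    (h0 : mn (Fin.cons s κ : Fin (n + 2) → R)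
      (Fin.cons p (Fin.cons w q : Fin (n + 1) → (R → ℝ)) : Fin (n + 2) → (R → ℝ)) = 0) :
    mn (Fin.cons s κ : Fin (n + 2) → R)
      (Fin.cons x (Fin.cons x' q : Fin (n + 1) → (R → ℝ)) : Fin (n + 2) → (R → ℝ)) =
      mn κ (Fin.cons w q : Fin (n + 1) → (R → ℝ)) := by
  have hr' : ∀ i, x' ((Fin.cons s κ : Fin (n + 2) → R) i) =
      w ((Fin.cons s κ : Fin (n + 2) → R) i) + x ((Fin.cons s κ : Fin (n + 2) → R) i) := by
    intro i
    refine Fin.cases ?_ (fun b => ?_) i
    · simpa using hxs'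
    · simpa using hx' b
  have h1 : mn (Fin.cons s κ : Fin (n + 2) → R)
      (Fin.cons x (Fin.cons x' q : Fin (n + 1) → (R → ℝ)) : Fin (n + 2) → (R → ℝ)) =
      mn (Fin.cons s κ : Fin (n + 2) → R)
      (Fin.cons x (Fin.cons w q : Fin (n + 1) → (R → ℝ)) : Fin (n + 2) → (R → ℝ)) := by
    unfold mn
    rw [← Matrix.det_updateCol_add_self (Matrix.of fun a b =>
      (Fin.cons x (Fin.cons w q : Fin (n + 1) → (R → ℝ)) : Fin (n + 2) → (R → ℝ)) b
        ((Fin.cons s κ : Fin (n + 2) → R) a))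
      (i := (0 : Fin (n + 1)).succ) (j := 0) (Fin.succ_ne_zero _)]
    congr 1
    ext i j
    refine Fin.cases ?_ (fun j' => ?_) j
    · rw [Matrix.updateCol_ne (Fin.succ_ne_zero _).symm]
      simp
    · refine Fin.cases ?_ (fun j'' => ?_) j'
      · rw [Matrix.updateCol_self]
        simp only [Matrix.of_apply, Fin.cons_succ, Fin.cons_zero]
        exact hr' i
      · rw [Matrix.updateCol_ne (by
          intro h
          exact Fin.succ_ne_zero _ (Fin.succ_injective _ h))]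
        simp
  rw [h1, ← sub_zero (mn (Fin.cons s κ : Fin (n + 2) → R) _), ← h0]
  unfold mn
  rw [Matrix.det_succ_column_zero, Matrix.det_succ_column_zero
    (Matrix.of fun a b =>
      (Fin.cons p (Fin.cons w q : Fin (n + 1) → (R → ℝ)) : Fin (n + 2) → (R → ℝ)) b
        ((Fin.cons s κ : Fin (n + 2) → R) a)), ← Finset.sum_sub_distrib, Finset.sum_eq_single 0]
  · simp only [Fin.val_zero, pow_zero, one_mul, Matrix.of_apply, Fin.cons_zero, hxs]
    have e1 : ∀ z : R → ℝ, ((Matrix.of fun a b =>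
        (Fin.cons z (Fin.cons w q : Fin (n + 1) → (R → ℝ)) : Fin (n + 2) → (R → ℝ)) b
        ((Fin.cons s κ : Fin (n + 2) → R) a)).submatrix (Fin.succAbove 0) Fin.succ) =
        Matrix.of fun a b => (Fin.cons w q : Fin (n + 1) → (R → ℝ)) b (κ a) := by
      intro z
      ext i j
      simp
    rw [e1, e1]
    ring
  · intro i _ hi
    obtain ⟨b, rfl⟩ := Fin.exists_succ_eq.2 hi
    simp only [Matrix.of_apply, Fin.cons_zero, Fin.cons_succ, hx b]
    have e1 : ∀ z : R → ℝ, ((Matrix.of fun a b =>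
        (Fin.cons z (Fin.cons w q : Fin (n + 1) → (R → ℝ)) : Fin (n + 2) → (R → ℝ)) b
        ((Fin.cons s κ : Fin (n + 2) → R) a)).submatrix (Fin.succAbove b.succ) Fin.succ) =
        Matrix.of fun a c => (Fin.cons w q : Fin (n + 1) → (R → ℝ)) c
          ((Fin.cons s κ : Fin (n + 2) → R) (b.succ.succAbove a)) := by
      intro z
      ext i j
      simp
    rw [e1, e1, sub_self]
  · intro h; exact absurd (Finset.mem_univ _) h

theorem span_zero (hL : S_LIN) {R : Type} {n : ℕ} (r : Fin (n + 1) → R) (g : Fin n → (R → ℝ))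
    (c : Fin (n + 1) → (R → ℝ)) (hc : ∀ b, c b ∈ Submodule.span ℝ (Set.range g)) :
    mn r c = 0 := by
  have h1 : ∀ b, ∃ u : Fin n → ℝ, ∑ i, u i • g i = c b := fun b =>
    (Submodule.mem_span_range_iff_exists_fun ℝ).1 (hc b)
  choose u hu using h1
  have h2 := hL R (n + 1) r (Fin.cons 0 g : Fin (n + 1) → (R → ℝ))
    (Matrix.of fun a b => (Fin.cons 0 (u b) : Fin (n + 1) → ℝ) a)
  have h3 : (fun b => ∑ a, (Matrix.of fun a b => (Fin.cons 0 (u b) : Fin (n + 1) → ℝ) a) a b •
      (Fin.cons 0 g : Fin (n + 1) → (R → ℝ)) a) = c := by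
    funext b
    rw [Fin.sum_univ_succ]
    simp [hu]
  rw [h3] at h2
  rw [h2]
  have h4 : mn r (Fin.cons 0 g : Fin (n + 1) → (R → ℝ)) = 0 := by
    unfold mn
    apply Matrix.det_eq_zero_of_column_eq_zero 0
    intro i
    simp
  rw [h4, zero_mul]

theorem abs_sub_opp {τ : ℤ} (h : τ = 1 ∨ τ = -1) : |((-τ : ℤ) : ℝ) - (τ : ℝ)| = 2 := by
  rcases h with rfl | rfl <;> norm_num

theorem main (hL : S_LIN) (_hB : S_BLK) (_h1 : S_AB1) (_hC : S_CRD) (hA : S_AB2A) : S_AB6 := by
  intro R S t f v κ hctx x hxS x' hxS' a σ k τ a' σ' k' τ' hp hp' s hs hs'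
  obtain ⟨hσ, hτ, hpx⟩ := hp
  obtain ⟨hσ', hτ', hpx'⟩ := hp'
  set p : R → ℝ := (σ : ℝ) • f a + (τ : ℝ) • v k with hpd
  set p' : R → ℝ := (σ' : ℝ) • f a' + (τ' : ℝ) • v k' with hpd'
  -- the span
  have hf : ∀ i, f i ∈ Submodule.span ℝ (Set.range (fv f v)) := by
    intro i
    apply Submodule.subset_span
    fin_cases i
    · exact ⟨0, rfl⟩
    · exact ⟨1, rfl⟩
  have hv : ∀ i, v i ∈ Submodule.span ℝ (Set.range (fv f v)) := by
    intro i
    apply Submodule.subset_span
    fin_cases i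
    · exact ⟨2, rfl⟩
    · exact ⟨3, rfl⟩
    · exact ⟨4, rfl⟩
  have hcomb : ∀ (i : Fin 2) (j : Fin 3) (y z : ℝ), y • f i + z • v j ∈
      Submodule.span ℝ (Set.range (fv f v)) := fun i j y z =>
    Submodule.add_mem _ (Submodule.smul_mem _ _ (hf i)) (Submodule.smul_mem _ _ (hv j))
  have key : ∀ q : Fin 4 → (R → ℝ), (∀ j, q j ∈ QV f v) →
      |mn κ (Fin.cons (p' - p) q : Fin 5 → (R → ℝ))| ≤ 1 := by
    intro q hq
    have hqs : ∀ j, q j ∈ S ∧ q j ∈ Submodule.span ℝ (Set.range (fv f v)) := by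
      intro j
      obtain ⟨i, l, y, z, hy, hz, he⟩ := hq j
      rw [he]
      exact ⟨hctx.qs i l y z hy hz, hcomb i l y z⟩
    have h0 : mn (Fin.cons s κ : Fin (4 + 2) → R)
        (Fin.cons p (Fin.cons (p' - p) q : Fin (4 + 1) → (R → ℝ)) : Fin (4 + 2) → (R → ℝ)) = 0 := by
      apply span_zero hL _ (fv f v)
      intro b
      refine Fin.cases ?_ (fun b' => ?_) b
      · rw [Fin.cons_zero]; exact hcomb _ _ _ _
      · rw [Fin.cons_succ]
        refine Fin.cases ?_ (fun b'' => ?_) b'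
        · rw [Fin.cons_zero]; exact Submodule.sub_mem _ (hcomb _ _ _ _) (hcomb _ _ _ _)
        · rw [Fin.cons_succ]; exact (hqs _).2
    have h1 := det_step (n := 4) κ s x x' p (p' - p) q hpx hs
      (by intro b; rw [hpx b, hpx' b, Pi.sub_apply]; ring)
      (by rw [hs, hs', Pi.sub_apply]; ring) h0
    rw [← h1]
    apply hctx.ts
    intro b
    refine Fin.cases ?_ (fun b' => ?_) b
    · rw [Fin.cons_zero]; exact hxS
    · rw [Fin.cons_succ]
      refine Fin.cases ?_ (fun b'' => ?_) b'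
      · rw [Fin.cons_zero]; exact hxS'
      · rw [Fin.cons_succ]; exact (hqs _).1
  obtain ⟨c1, c2⟩ := hA R S t f v κ hctx (p' - p)
    (fun j => (if j = a' then (σ' : ℝ) else 0) - (if j = a then (σ : ℝ) else 0))
    (fun j => (if j = k' then (τ' : ℝ) else 0) - (if j = k then (τ : ℝ) else 0)) (by
      intro b
      rw [Pi.sub_apply, hpd, hpd']
      simp only [sub_mul, Finset.sum_sub_distrib, ite_mul, zero_mul, Finset.sum_ite_eq',
        Finset.mem_univ, if_true, Pi.add_apply, Pi.smul_apply, smul_eq_mul]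
      ring) key
  by_cases hk : k = k'
  · left
    refine ⟨hk, ?_⟩
    by_contra hne
    have h2 : τ' = -τ := by
      rcases hτ with rfl | rfl <;> rcases hτ' with rfl | rfl <;> simp_all
    have h3 := c1 k
    simp only [if_true, hk] at h3
    rw [h2, abs_sub_opp hτ] at h3
    norm_num at h3
  · right
    have hk' : k' ≠ k := fun h => hk h.symm
    have habs : ∀ z : ℤ, (z = 1 ∨ z = -1) → |(z : ℝ)| = 1 := by
      rintro z (rfl | rfl) <;> norm_num
    have h3 : ∀ i, |(if i = a' then (σ' : ℝ) else 0) - (if i = a then (σ : ℝ) else 0)| ≤ 0 := by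
      intro i
      have h4 := c2 i k k' hk
      simp only [if_true, if_neg hk, if_neg hk', zero_sub, sub_zero, abs_neg] at h4
      rw [habs τ hτ, habs τ' hτ'] at h4
      linarith
    have haa : a = a' := by
      by_contra hne
      have h4 := h3 a
      rw [if_neg hne, if_pos rfl, zero_sub, abs_neg, habs σ hσ] at h4
      norm_num at h4
    refine ⟨haa, ?_, fun h => hk h.1⟩
    have h4 := h3 a
    rw [if_pos haa, if_pos rfl] at h4
    have h5 : (σ' : ℝ) - σ = 0 := abs_nonpos_iff.1 h4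
    have h6 : (σ : ℝ) = σ' := by linarith
    exact_mod_cast h6

end Pool.Agent.W405.SH.AB6
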